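import Mathlib

/-!
# Maclaurin's inequality with the case of equality
-/

set_option autoImplicit false

open Finset

namespace Q188.Mean

variable {ι : Type*} [DecidableEq ι]

/-- elementary symmetric functions -/
def ek (s : Finset ι) (y : ι → ℝ) (k : ℕ) : ℝ := ∑ I ∈ s.powersetCard k, ∏ i ∈ I, y i

theorem ek_nonneg {s : Finset ι} {y : ι → ℝ} (hy : ∀ i ∈ s, 0 ≤ y i) (k : ℕ) : 0 ≤ ek s y k := by
  unfold ek
  refine sum_nonneg fun I hI => prod_nonneg fun i hi => hy i ?_
  exact (mem_powersetCard.1 hI).1 hi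

theorem ek_insert {s : Finset ι} {y : ι → ℝ} {a : ι} (ha : a ∉ s) (k : ℕ) :
    ek (insert a s) y (k + 1) = ek s y (k + 1) + y a * ek s y k := by
  unfold ek
  rw [powersetCard_succ_insert ha, sum_union, sum_image, mul_sum]
  · congr 1
    refine sum_congr rfl fun I hI => ?_
    rw [prod_insert]
    exact fun h => ha ((mem_powersetCard.1 hI).1 h)
  · intro I hI J hJ h
    have hI' : a ∉ I := fun h => ha ((mem_powersetCard.1 hI).1 h)
    have hJ' : a ∉ J := fun h => ha ((mem_powersetCard.1 hJ).1 h)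
    rw [← erase_insert hI', ← erase_insert hJ', h]
  · rw [disjoint_left]
    intro I hI hI'
    obtain ⟨J, _, rfl⟩ := mem_image.1 hI'
    exact ha ((mem_powersetCard.1 hI).1 (mem_insert_self _ _))

theorem ek_zero (s : Finset ι) (y : ι → ℝ) : ek s y 0 = 1 := by simp [ek]

theorem ek_one (s : Finset ι) (y : ι → ℝ) : ek s y 1 = ∑ i ∈ s, y i := by
  simp [ek, powersetCard_one]

theorem sum_erase1 (s : Finset ι) (y : ι → ℝ) (k : ℕ) :
    ∑ i ∈ s, ek (s.erase i) y k = ((s.card : ℝ) - k) * ek s y k := by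
  unfold ek
  have h : ∑ i ∈ s, ∑ I ∈ (s.erase i).powersetCard k, ∏ j ∈ I, y j =
      ∑ I ∈ s.powersetCard k, ∑ i ∈ s \ I, ∏ j ∈ I, y j := by
    apply sum_comm'
    intro i I
    simp only [mem_powersetCard, mem_sdiff, subset_erase]
    tauto
  rw [h, mul_sum]
  refine sum_congr rfl fun I hI => ?_
  obtain ⟨h1, h2⟩ := mem_powersetCard.1 hI
  rw [sum_const, card_sdiff_of_subset h1, nsmul_eq_mul, h2, Nat.cast_sub]
  rw [← h2]
  exact card_le_card h1

theorem sum_erase2 (s : Finset ι) (y : ι → ℝ) (k : ℕ) :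
    ∑ i ∈ s, y i * ek (s.erase i) y k = ((k : ℝ) + 1) * ek s y (k + 1) := by
  unfold ek
  have h : ∑ i ∈ s, y i * ∑ I ∈ (s.erase i).powersetCard k, ∏ j ∈ I, y j =
      ∑ i ∈ s, ∑ J ∈ (s.powersetCard (k + 1)).filter (fun J => i ∈ J), ∏ j ∈ J, y j := by
    refine sum_congr rfl fun i hi => ?_
    rw [mul_sum]
    refine sum_bij' (fun I _ => insert i I) (fun J _ => J.erase i) ?_ ?_ ?_ ?_ ?_
    · intro I hI
      obtain ⟨h1, h2⟩ := mem_powersetCard.1 hI
      have hi' : i ∉ I := fun h => (mem_erase.1 (h1 h)).1 rfl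
      rw [mem_filter, mem_powersetCard]
      refine ⟨⟨?_, by rw [card_insert_of_notMem hi', h2]⟩, mem_insert_self _ _⟩
      exact insert_subset hi (h1.trans (erase_subset _ _))
    · intro J hJ
      rw [mem_filter, mem_powersetCard] at hJ
      rw [mem_powersetCard]
      refine ⟨erase_subset_erase _ hJ.1.1, ?_⟩
      rw [card_erase_of_mem hJ.2, hJ.1.2]
      rfl
    · intro I hI
      obtain ⟨h1, h2⟩ := mem_powersetCard.1 hI
      exact erase_insert (fun h => (mem_erase.1 (h1 h)).1 rfl)
    · intro J hJ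
      rw [mem_filter] at hJ
      exact insert_erase hJ.2
    · intro I hI
      obtain ⟨h1, h2⟩ := mem_powersetCard.1 hI
      rw [prod_insert (fun h => (mem_erase.1 (h1 h)).1 rfl)]
  rw [h]
  have h2 : ∑ i ∈ s, ∑ J ∈ (s.powersetCard (k + 1)).filter (fun J => i ∈ J), ∏ j ∈ J, y j =
      ∑ J ∈ s.powersetCard (k + 1), ∑ i ∈ J, ∏ j ∈ J, y j := by
    apply sum_comm'
    intro i J
    simp only [mem_filter, mem_powersetCard]
    constructor
    · rintro ⟨h1, h2, h3⟩
      exact ⟨h3, h2⟩
    · rintro ⟨h1, h2⟩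
      exact ⟨h2.1 h1, h2, h1⟩
  rw [h2, mul_sum]
  refine sum_congr rfl fun J hJ => ?_
  rw [sum_const, (mem_powersetCard.1 hJ).2, nsmul_eq_mul]
  push_cast
  ring

/-- the step of Maclaurin's inequality -/
theorem step [Fintype ι] {y : ι → ℝ} (hy : ∀ i, 0 ≤ y i) (k : ℕ) :
    (Fintype.card ι : ℝ) * (((k : ℝ) + 1) * ek univ y (k + 1)) ≤
      (∑ i, y i) * (((Fintype.card ι : ℝ) - k) * ek univ y k) := by
  have hanti : Antivary y (fun i => ek (univ.erase i) y k) := by
    intro i j hij
    by_contra hc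
    push Not at hc
    have hne : i ≠ j := by
      rintro rfl
      exact lt_irrefl _ hc
    apply absurd hij
    push Not
    cases k with
    | zero => rw [ek_zero, ek_zero]
    | succ k =>
      have e1 : (univ.erase i : Finset ι) = insert j ((univ.erase i).erase j) := by
        rw [insert_erase]
        exact mem_erase.2 ⟨hne.symm, mem_univ _⟩
      have e2 : (univ.erase j : Finset ι) = insert i ((univ.erase i).erase j) := by
        rw [erase_right_comm, insert_erase]
        exact mem_erase.2 ⟨hne, mem_univ _⟩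
      have h1 : ek (univ.erase i) y (k + 1) = ek ((univ.erase i).erase j) y (k + 1) +
          y j * ek ((univ.erase i).erase j) y k := by
        conv_lhs => rw [e1]
        exact ek_insert (notMem_erase _ _) k
      have h2 : ek (univ.erase j) y (k + 1) = ek ((univ.erase i).erase j) y (k + 1) +
          y i * ek ((univ.erase i).erase j) y k := by
        conv_lhs => rw [e2]
        exact ek_insert (by rw [erase_right_comm]; exact notMem_erase _ _) k
      rw [h1, h2]
      have := ek_nonneg (s := (univ.erase i).erase j) (fun l _ => hy l) k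
      nlinarith
  have h := hanti.card_mul_sum_le_sum_mul_sum
  rw [sum_erase1, sum_erase2, card_univ] at h
  exact h

/-- Maclaurin's inequality, relative to the second elementary symmetric function -/
theorem mac_rel [Fintype ι] {y : ι → ℝ} (hy : ∀ i, 0 ≤ y i) (hn : 0 < Fintype.card ι) {j k : ℕ}
    (hjk : j ≤ k) : ek univ y k * ((Fintype.card ι).choose j * ((∑ i, y i) / Fintype.card ι) ^ j) ≤
      (Fintype.card ι).choose k * ((∑ i, y i) / Fintype.card ι) ^ k * ek univ y j := by
  set n := Fintype.card ι with hnn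
  set S := ∑ i, y i with hS
  have hn' : (0 : ℝ) < n := by exact_mod_cast hn
  have hS0 : 0 ≤ S := sum_nonneg fun i _ => hy i
  induction k, hjk using Nat.le_induction with
  | base => rw [mul_comm]
  | succ k hjk ih =>
    have hst := step hy k
    rw [← hnn, ← hS] at hst
    by_cases hkn : k < n
    · have hc : ((n.choose (k + 1) : ℕ) : ℝ) * ((k : ℝ) + 1) = n.choose k * ((n : ℝ) - k) := by
        have := Nat.choose_succ_right_eq n k
        have h2 : (((n.choose (k + 1) * (k + 1) : ℕ)) : ℝ) = ((n.choose k * (n - k) : ℕ) : ℝ) := by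
          rw [this]
        push_cast [Nat.cast_sub hkn.le] at h2
        exact h2
      have hk1 : (0 : ℝ) < (k : ℝ) + 1 := by positivity
      have hcc : (n.choose (k + 1) : ℝ) = n.choose k * ((n : ℝ) - k) / ((k : ℝ) + 1) := by
        rw [eq_div_iff hk1.ne', hc]
      have hst' : ek univ y (k + 1) ≤ ((n : ℝ) - k) / ((k : ℝ) + 1) * (S / n) * ek univ y k := by
        have e : ((n : ℝ) - k) / ((k : ℝ) + 1) * (S / n) * ek univ y k =
            (S * (((n : ℝ) - k) * ek univ y k)) / (n * ((k : ℝ) + 1)) := by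
          field_simp
        rw [e, le_div_iff₀ (by positivity)]
        calc ek univ y (k + 1) * (n * ((k : ℝ) + 1)) = n * (((k : ℝ) + 1) * ek univ y (k + 1)) := by
              ring
          _ ≤ _ := hst
      have hf : 0 ≤ ((n : ℝ) - k) / ((k : ℝ) + 1) * (S / n) := by
        have : (k : ℝ) ≤ n := by exact_mod_cast hkn.le
        have : 0 ≤ (n : ℝ) - k := by linarith
        positivity
      calc ek univ y (k + 1) * (n.choose j * (S / n) ^ j)
          ≤ (((n : ℝ) - k) / ((k : ℝ) + 1) * (S / n) * ek univ y k) *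
              (n.choose j * (S / n) ^ j) := by gcongr
        _ = (((n : ℝ) - k) / ((k : ℝ) + 1) * (S / n)) *
              (ek univ y k * (n.choose j * (S / n) ^ j)) := by ring
        _ ≤ (((n : ℝ) - k) / ((k : ℝ) + 1) * (S / n)) *
              (n.choose k * (S / n) ^ k * ek univ y j) := by gcongr
        _ = n.choose (k + 1) * (S / n) ^ (k + 1) * ek univ y j := by
            rw [hcc]; ring
    · have h0 : ek univ y (k + 1) = 0 := by
        unfold ek
        rw [powersetCard_eq_empty.2, sum_empty]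
        rw [card_univ, ← hnn]
        omega
      have h1 : n.choose (k + 1) = 0 := Nat.choose_eq_zero_of_lt (by omega)
      rw [h0, h1]
      simp

theorem mac_le [Fintype ι] {y : ι → ℝ} (hy : ∀ i, 0 ≤ y i) (hn : 0 < Fintype.card ι) (k : ℕ) :
    ek univ y k ≤ (Fintype.card ι).choose k * ((∑ i, y i) / Fintype.card ι) ^ k := by
  have h := mac_rel hy hn (Nat.zero_le k)
  simpa [ek_zero] using h

theorem mac_eq [Fintype ι] {y : ι → ℝ} (hy : ∀ i, 0 ≤ y i) {k : ℕ} (hk : 2 ≤ k)
    (hkn : k ≤ Fintype.card ι) (hS : 0 < ∑ i, y i)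
    (h : ek univ y k = (Fintype.card ι).choose k * ((∑ i, y i) / Fintype.card ι) ^ k) (i : ι) :
    y i = (∑ i, y i) / Fintype.card ι := by
  have hn : 0 < Fintype.card ι := by omega
  have h1 := mac_rel hy hn hk
  rw [h] at h1
  set n := Fintype.card ι with hnn
  set S := ∑ i, y i with hSS
  have hn' : (0 : ℝ) < n := by exact_mod_cast hn
  have hpos : 0 < (n.choose k : ℝ) * (S / n) ^ k := by
    have : 0 < n.choose k := Nat.choose_pos hkn
    have : (0 : ℝ) < n.choose k := by exact_mod_cast this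
    positivity
  have h2 : (n.choose 2 : ℝ) * (S / n) ^ 2 ≤ ek univ y 2 := le_of_mul_le_mul_left h1 hpos
  -- the second elementary symmetric function
  have e2 : 2 * ek univ y 2 = S ^ 2 - ∑ i, y i ^ 2 := by
    have h3 := sum_erase2 (univ : Finset ι) y 1
    have h4 : ∑ i, y i * ek (univ.erase i) y 1 = S ^ 2 - ∑ i, y i ^ 2 := by
      have : ∀ i, ek (univ.erase i) y 1 = S - y i := by
        intro i
        rw [ek_one, hSS, ← add_sum_erase univ y (mem_univ i)]
        ring
      simp only [this, mul_sub]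
      rw [sum_sub_distrib, ← sum_mul, ← hSS, sq]
      congr 1
      exact sum_congr rfl fun i _ => by ring
    rw [h4] at h3
    rw [h3]
    norm_num
  have hc2 : (n.choose 2 : ℝ) = n * (n - 1) / 2 := by
    have := Nat.cast_choose_two (K := ℝ) n
    exact this
  have h5 : ∑ i, y i ^ 2 ≤ S ^ 2 / n := by
    rw [hc2] at h2
    have : (n : ℝ) * (n - 1) / 2 * (S / n) ^ 2 = (S ^ 2 - S ^ 2 / n) / 2 := by
      field_simp
    rw [this] at h2
    linarith
  have h6 : ∑ i, (y i - S / n) ^ 2 ≤ 0 := by
    have : ∑ i, (y i - S / n) ^ 2 = ∑ i, y i ^ 2 - S ^ 2 / n := by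
      simp only [sub_sq]
      rw [sum_add_distrib, sum_sub_distrib, ← sum_mul, ← mul_sum, ← hSS, sum_const, card_univ,
        ← hnn, nsmul_eq_mul]
      field_simp
      ring
    rw [this]
    linarith
  have h7 : (y i - S / n) ^ 2 ≤ ∑ i, (y i - S / n) ^ 2 :=
    single_le_sum (f := fun i => (y i - S / n) ^ 2) (fun i _ => sq_nonneg _) (mem_univ i)
  have h8 : (y i - S / n) ^ 2 = 0 := le_antisymm (h7.trans h6) (sq_nonneg _)
  have := pow_eq_zero_iff (two_ne_zero) |>.1 h8
  linarith

end Q188.Mean
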