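import Pool.Agent.Q188.Mean.Mac

/-!
# Principal minors of a symmetric matrix, and of a singular positive semidefinite one
-/

set_option autoImplicit false

open Finset Matrix

namespace Q188.Mean

variable {ι : Type*} [DecidableEq ι] [Fintype ι]

/-- the sum of the principal `k × k` minors -/
def minors (G : Matrix ι ι ℝ) (k : ℕ) : ℝ :=
  ∑ s ∈ univ.powersetCard k, (G.submatrix (Subtype.val : s → ι) (Subtype.val : s → ι)).det

theorem minors_eq {G : Matrix ι ι ℝ} (hG : G.IsHermitian) {k : ℕ} (hk : k ≤ Fintype.card ι) :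
    minors G k = ek univ hG.eigenvalues k := by
  have h1 := charpoly_coeff_eq_sum_minors G k hk
  have h2 : G.charpoly = ((univ.val.map hG.eigenvalues).map
      (fun t => Polynomial.X - Polynomial.C t)).prod := by
    rw [hG.charpoly_eq, Multiset.map_map]
    rfl
  have hcard : Multiset.card (univ.val.map hG.eigenvalues) = Fintype.card ι := by simp
  have h3 := Multiset.prod_X_sub_C_coeff (univ.val.map hG.eigenvalues)
    (k := Fintype.card ι - k) (by rw [hcard]; omega)
  rw [← h2, hcard, h1] at h3
  have h4 : Fintype.card ι - (Fintype.card ι - k) = k := by omega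
  rw [h4, Finset.esymm_map_val] at h3
  have h5 : ((-1 : ℝ) ^ k) ≠ 0 := pow_ne_zero _ (by norm_num)
  exact mul_left_cancel₀ h5 h3

/-- removing a zero -/
theorem ek_erase_zero {y : ι → ℝ} {i : ι} (hi : y i = 0) (k : ℕ) :
    ek univ y k = ek (univ.erase i) y k := by
  cases k with
  | zero => rw [ek_zero, ek_zero]
  | succ k =>
    have e : (univ : Finset ι) = insert i (univ.erase i) := by
      rw [insert_erase (mem_univ i)]
    conv_lhs => rw [e]
    rw [ek_insert (notMem_erase _ _), hi, zero_mul, add_zero]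

theorem ek_erase_sub (y : ι → ℝ) (i : ι) (k : ℕ) :
    ek (univ.erase i) y k = ek (univ : Finset {j // j ≠ i}) (fun j => y j.1) k := by
  unfold ek
  symm
  refine sum_bij' (fun I _ => I.map (Function.Embedding.subtype _))
    (fun J _ => J.subtype (fun j => j ≠ i)) ?_ ?_ ?_ ?_ ?_
  · intro I hI
    rw [mem_powersetCard] at hI ⊢
    refine ⟨?_, by rw [card_map, hI.2]⟩
    intro j hj
    rw [mem_map] at hj
    obtain ⟨a, _, rfl⟩ := hj
    exact mem_erase.2 ⟨a.2, mem_univ _⟩
  · intro J hJ
    rw [mem_powersetCard] at hJ ⊢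
    refine ⟨subset_univ _, ?_⟩
    rw [card_subtype, filter_true_of_mem, hJ.2]
    intro j hj
    exact (mem_erase.1 (hJ.1 hj)).1
  · intro I hI
    ext j
    simp [mem_subtype]
    intro _
    exact j.2
  · intro J hJ
    rw [mem_powersetCard] at hJ
    rw [subtype_map]
    exact filter_true_of_mem fun j hj => (mem_erase.1 (hJ.1 hj)).1
  · intro I hI
    rw [prod_map]
    rfl

/-- the sum of the principal minors of a singular positive semidefinite matrix -/
theorem minors_le {G : Matrix ι ι ℝ} (hG : G.PosSemidef) (hdet : G.det = 0) {d : ℕ}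
    (hd : Fintype.card ι = d + 1) {k : ℕ} (hk : k ≤ d) (hd0 : 0 < d) :
    minors G k ≤ d.choose k * (G.trace / d) ^ k := by
  obtain ⟨i, hi⟩ : ∃ i, hG.1.eigenvalues i = 0 := by
    have h := hG.1.det_eq_prod_eigenvalues
    rw [hdet] at h
    have h2 := Finset.prod_eq_zero_iff.1 h.symm
    obtain ⟨i, _, hi⟩ := h2
    exact ⟨i, by simpa using hi⟩
  have hcard : Fintype.card {j // j ≠ i} = d := by
    rw [Fintype.card_subtype_compl, Fintype.card_subtype_eq, hd]; rfl
  rw [minors_eq hG.1 (by omega), ek_erase_zero hi, ek_erase_sub]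
  have htr : ∑ j : {j // j ≠ i}, hG.1.eigenvalues j.1 = G.trace := by
    rw [hG.1.trace_eq_sum_eigenvalues]
    have := Fintype.sum_eq_add_sum_subtype_ne (fun j => hG.1.eigenvalues j) i
    rw [hi, zero_add] at this
    simpa using this.symm
  have h := mac_le (y := fun j : {j // j ≠ i} => hG.1.eigenvalues j.1)
    (fun j => hG.eigenvalues_nonneg _) (by omega) k
  rw [hcard, htr] at h
  exact h

/-- the case of equality -/
theorem minors_eq_case {G : Matrix ι ι ℝ} (hG : G.PosSemidef) (hdet : G.det = 0) {d : ℕ}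
    (hd : Fintype.card ι = d + 1) {k : ℕ} (hk2 : 2 ≤ k) (hk : k ≤ d) (htr : 0 < G.trace)
    (h : minors G k = d.choose k * (G.trace / d) ^ k) :
    ∃ w : ι → ℝ, ∀ a b, G a b = (G.trace / d) * ((if a = b then 1 else 0) - w a * w b) := by
  obtain ⟨i, hi⟩ : ∃ i, hG.1.eigenvalues i = 0 := by
    have h := hG.1.det_eq_prod_eigenvalues
    rw [hdet] at h
    have h2 := Finset.prod_eq_zero_iff.1 h.symm
    obtain ⟨i, _, hi⟩ := h2
    exact ⟨i, by simpa using hi⟩
  have hcard : Fintype.card {j // j ≠ i} = d := by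
    rw [Fintype.card_subtype_compl, Fintype.card_subtype_eq, hd]; rfl
  rw [minors_eq hG.1 (by omega), ek_erase_zero hi, ek_erase_sub] at h
  have htr' : ∑ j : {j // j ≠ i}, hG.1.eigenvalues j.1 = G.trace := by
    rw [hG.1.trace_eq_sum_eigenvalues]
    have := Fintype.sum_eq_add_sum_subtype_ne (fun j => hG.1.eigenvalues j) i
    rw [hi, zero_add] at this
    simpa using this.symm
  have h2 := mac_eq (y := fun j : {j // j ≠ i} => hG.1.eigenvalues j.1)
    (fun j => hG.eigenvalues_nonneg _) hk2 (by omega) (by rw [htr']; exact htr)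
    (by rw [hcard, htr']; exact h)
  rw [hcard, htr'] at h2
  set κ := G.trace / d with hκ
  set U : Matrix ι ι ℝ := (hG.1.eigenvectorUnitary : Matrix ι ι ℝ) with hU
  refine ⟨fun a => U a i, fun a b => ?_⟩
  have hUU : U * star U = 1 := by
    exact (Matrix.mem_unitaryGroup_iff).1 hG.1.eigenvectorUnitary.2
  have hsp := hG.1.spectral_theorem
  have hGa : G a b = ∑ j, U a j * hG.1.eigenvalues j * U b j := by
    conv_lhs => rw [hsp]
    rw [Unitary.conjStarAlgAut_apply, Matrix.mul_apply]
    refine sum_congr rfl fun j _ => ?_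
    rw [Matrix.mul_diagonal]
    simp [hU, Matrix.star_apply]
  have h1 : (if a = b then (1 : ℝ) else 0) = ∑ j, U a j * U b j := by
    have := congrFun (congrFun hUU a) b
    rw [Matrix.mul_apply, Matrix.one_apply] at this
    rw [← this]
    refine sum_congr rfl fun j _ => ?_
    simp [Matrix.star_apply]
  rw [hGa, h1]
  have hlam : ∀ j, j ≠ i → hG.1.eigenvalues j = κ := fun j hj => h2 ⟨j, hj⟩
  rw [← add_sum_erase _ _ (mem_univ i), ← add_sum_erase univ (fun j => U a j * U b j) (mem_univ i),
    hi, mul_zero, zero_mul, zero_add, add_sub_cancel_left, mul_sum]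
  refine sum_congr rfl fun j hj => ?_
  rw [hlam j (mem_erase.1 hj).1]
  ring

end Q188.Mean
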