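import Pool.Agent.Q188.Mean.Vk

/-!
# Regular families
-/

set_option autoImplicit false

open Finset Matrix
open scoped Pointwise

namespace Q188.Mean

open Q188.Rhomb

theorem Zono_eq' {d n : ℕ} (p : Fin n → EuclideanSpace ℝ (Fin d)) (x : EuclideanSpace ℝ (Fin d)) :
    x ∈ Zono p ↔ ∃ s : Fin n → ℝ, (∀ i, |s i| ≤ 1) ∧
      x = (1 / 2 : ℝ) • ∑ i, p i + (1 / 2 : ℝ) • ∑ i, s i • p i := by
  rw [mem_Zono]
  constructor
  · rintro ⟨t, ht, rfl⟩
    refine ⟨fun i => 2 * t i - 1, fun i => ?_, ?_⟩
    · have := ht i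
      rw [abs_le]
      constructor <;> linarith
    · rw [← smul_add, ← Finset.sum_add_distrib, Finset.smul_sum]
      refine Finset.sum_congr rfl fun i _ => ?_
      rw [sub_smul, one_smul, add_sub_cancel, smul_smul]
      congr 1
      ring
  · rintro ⟨s, hs, rfl⟩
    refine ⟨fun i => (1 + s i) / 2, fun i => ?_, ?_⟩
    · have := abs_le.1 (hs i)
      constructor <;> linarith
    · rw [← smul_add, ← Finset.sum_add_distrib, Finset.smul_sum]
      refine Finset.sum_congr rfl fun i _ => ?_
      rw [← one_smul ℝ (p i), smul_smul, smul_smul, ← add_smul, smul_smul]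
      congr 1
      ring

/-- changing the signs of the generators translates the zonotope -/
theorem Zono_signs {d n : ℕ} (p : Fin n → EuclideanSpace ℝ (Fin d)) (e : Fin n → ℝ)
    (he : ∀ i, |e i| = 1) : Zono p = (fun x => ((1 / 2 : ℝ) • ∑ i, p i -
      (1 / 2 : ℝ) • ∑ i, e i • p i) + x) '' Zono (fun i => e i • p i) := by
  have hee : ∀ i, e i * e i = 1 := fun i => by rw [← sq, ← sq_abs, he i]; norm_num
  ext x
  rw [Set.mem_image, Zono_eq']
  constructor
  · rintro ⟨s, hs, rfl⟩
    refine ⟨(1 / 2 : ℝ) • ∑ i, e i • p i + (1 / 2 : ℝ) • ∑ i, s i • p i, ?_, by abel⟩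
    rw [Zono_eq']
    refine ⟨fun i => s i * e i, fun i => by rw [abs_mul, he i, mul_one]; exact hs i, ?_⟩
    congr 2
    refine sum_congr rfl fun i _ => ?_
    rw [smul_smul, mul_assoc, hee, mul_one]
  · rintro ⟨y, hy, rfl⟩
    rw [Zono_eq'] at hy
    obtain ⟨s, hs, rfl⟩ := hy
    refine ⟨fun i => s i * e i, fun i => by rw [abs_mul, he i, mul_one]; exact hs i, ?_⟩
    simp only [smul_smul]
    abel

/-- A family whose Gram matrix is `κ (1 - w wᵀ)` with constant diagonal generates a regular rhombic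
dodecahedron. -/
theorem regular_of_gram {d : ℕ} (p : Fin (d + 1) → EuclideanSpace ℝ (Fin d)) (hd : 0 < d) {c : ℝ}
    (hc : 0 < c) (w : Fin (d + 1) → ℝ) (hw : ∀ i, w i ^ 2 = 1 / (d + 1))
    (hg : ∀ a b, inner ℝ (p a) (p b) = c * ((if a = b then 1 else 0) - w a * w b)) :
    IsRegularRhombic (Zono p) := by
  have hd1 : (0 : ℝ) < (d : ℝ) + 1 := by positivity
  have hw0 : ∀ i, w i ≠ 0 := by
    intro i h
    have := hw i
    rw [h] at this
    have h2 : (0 : ℝ) < 1 / (d + 1) := by positivity
    rw [← this] at h2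
    norm_num at h2
  set e : Fin (d + 1) → ℝ := fun i => SignType.sign (w i) with he
  have hea : ∀ i, |e i| = 1 := by
    intro i
    rcases lt_or_gt_of_ne (hw0 i) with h | h
    · simp [he, sign_neg h]
    · simp [he, sign_pos h]
  have hew : ∀ i, e i * w i = √(1 / (d + 1)) := by
    intro i
    rw [← hw i, Real.sqrt_sq_eq_abs, he]
    simp only
    rw [mul_comm, self_mul_sign]
  have hss : √(1 / ((d : ℝ) + 1)) * √(1 / ((d : ℝ) + 1)) = 1 / (d + 1) :=
    Real.mul_self_sqrt (by positivity)
  have hee : ∀ i, e i * e i = 1 := fun i => by rw [← sq, ← sq_abs, hea i]; norm_num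
  have hg' : ∀ a b, inner ℝ (e a • p a) (e b • p b) =
      c * ((if a = b then 1 else 0) - 1 / (d + 1)) := by
    intro a b
    rw [inner_smul_left, inner_smul_right, hg]
    simp only [conj_trivial]
    split_ifs with h
    · subst h
      calc e a * (e a * (c * (1 - w a * w a))) = c * (e a * e a - (e a * w a) * (e a * w a)) := by
            ring
        _ = _ := by rw [hew, hee, hss]
    · calc e a * (e b * (c * (0 - w a * w b))) = c * (0 - (e a * w a) * (e b * w b)) := by ring
        _ = _ := by rw [hew, hew, hss]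
  refine ⟨_, fun i => e i • p i, ⟨√(2 * c), by positivity, ?_⟩, ?_, Zono_signs p e hea⟩
  · intro i j hij
    rw [dist_eq_norm, ← Real.sqrt_sq (norm_nonneg (e i • p i - e j • p j)), norm_sub_sq_real,
      ← real_inner_self_eq_norm_sq, ← real_inner_self_eq_norm_sq, hg', hg', hg', if_pos rfl,
      if_pos rfl, if_neg hij]
    congr 1
    ring
  · rw [← norm_eq_zero, ← sq_eq_zero_iff, ← real_inner_self_eq_norm_sq, sum_inner]
    have : ∀ i, inner ℝ (e i • p i) (∑ j, e j • p j) = 0 := by
      intro i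
      rw [inner_sum]
      simp only [hg']
      rw [← mul_sum, sum_sub_distrib, Finset.sum_ite_eq, if_pos (mem_univ _), sum_const,
        card_univ, Fintype.card_fin, nsmul_eq_mul]
      push_cast
      rw [mul_one_div, div_self hd1.ne', sub_self, mul_zero]
    simp [this]

/-- the equality case of the inequality -/
theorem regular_of_max {d : ℕ} {k : ℕ} (hk2 : 2 ≤ k) (hk : k ≤ d)
    (p : Fin (d + 1) → EuclideanSpace ℝ (Fin d)) (hS : 0 < ∑ i, ‖p i‖)
    (h : bd d k (∑ i, ‖p i‖) ≤ Vk k p) : IsRegularRhombic (Zono p) := by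
  obtain ⟨hx, w, hw⟩ := eq_case hk2 hk p hS h
  set S := ∑ i, ‖p i‖ with hSS
  have hd : 0 < d := by omega
  have hd' : (0 : ℝ) < d := by exact_mod_cast hd
  have hx0 : (0 : ℝ) < S / (d + 1) := by positivity
  refine regular_of_gram p hd (c := (S / (d + 1)) * (S / d)) (by positivity) w ?_ ?_
  · intro i
    have h1 := hw i i
    rw [real_inner_self_eq_norm_sq, norm_qq, hx i, if_pos rfl] at h1
    have h2 : 1 - w i * w i = d / (d + 1) := by
      field_simp at h1 ⊢
      linarith
    have h3 : w i ^ 2 = 1 - d / (d + 1) := by linarith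
    rw [h3]
    field_simp
    ring
  · intro a b
    conv_lhs => rw [← qq_smul p a, ← qq_smul p b]
    rw [inner_smul_left, inner_smul_right, hw, hx a, hx b]
    simp only [conj_trivial]
    rw [← mul_assoc, Real.mul_self_sqrt hx0.le]
    ring

end Q188.Mean
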