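import Pool.Agent.Q188.Mean.Reg

/-!
# The value at the regular families, existence of regular families
-/

set_option autoImplicit false

open Finset Matrix
open scoped Pointwise

namespace Q188.Mean

open Q188.Rhomb

theorem det_reg {n : ℕ} (I : Finset (Fin n)) (c m : ℝ) :
    (Matrix.of fun i j : I => c * ((if i.1 = j.1 then (1 : ℝ) else 0) - m)).det =
      c ^ I.card * (1 - I.card * m) := by
  have e : (Matrix.of fun i j : I => c * ((if i.1 = j.1 then (1 : ℝ) else 0) - m)) =
      c • (1 + replicateCol Unit (fun _ : I => -m) * replicateRow Unit (fun _ : I => (1 : ℝ))) := by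
    ext i j
    simp only [of_apply, Matrix.smul_apply, Matrix.add_apply, mul_apply, smul_eq_mul, one_apply,
      replicateCol_apply, replicateRow_apply, univ_unique, sum_singleton, Subtype.ext_iff]
    ring
  rw [e, det_smul, det_one_add_replicateCol_mul_replicateRow, Fintype.card_coe]
  congr 1
  simp [dotProduct]
  ring

theorem vk_of_gram {d k : ℕ} (hk : k ≤ d) (hd : 0 < d) (p : Fin (d + 1) → EuclideanSpace ℝ (Fin d))
    {c : ℝ} (hc : 0 < c)
    (hg : ∀ a b, inner ℝ (p a) (p b) = c * ((if a = b then 1 else 0) - 1 / ((d : ℝ) + 1))) :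
    Vk k p = bd d k (∑ i, ‖p i‖) := by
  have hd' : (0 : ℝ) < d := by exact_mod_cast hd
  have hd1 : (0 : ℝ) < (d : ℝ) + 1 := by positivity
  have hnorm : ∀ i, ‖p i‖ = √(c * (d / (d + 1))) := by
    intro i
    have h1 := hg i i
    rw [real_inner_self_eq_norm_sq, if_pos rfl] at h1
    rw [← Real.sqrt_sq (norm_nonneg (p i)), h1]
    congr 2
    field_simp
    ring
  have hV : Vk k p = (d + 1).choose k * √(c ^ k * (1 - k * (1 / ((d : ℝ) + 1)))) := by
    unfold Vk
    have : ∀ I ∈ univ.powersetCard k,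
        √ (Matrix.det (Matrix.of fun i j : I => inner ℝ (p i.1) (p j.1))) =
          √(c ^ k * (1 - k * (1 / ((d : ℝ) + 1)))) := by
      intro I hI
      have hcard := (mem_powersetCard.1 hI).2
      simp only [hg]
      rw [det_reg, hcard]
    rw [sum_congr rfl this, sum_const, card_powersetCard, card_univ, Fintype.card_fin,
      nsmul_eq_mul]
  rw [hV]
  unfold bd
  simp only [hnorm, sum_const, card_univ, Fintype.card_fin, nsmul_eq_mul]
  push_cast
  set x := √(c * (d / (d + 1))) with hx
  have hx2 : x ^ 2 = c * (d / (d + 1)) := Real.sq_sqrt (by positivity)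
  have hx0 : 0 < x := by positivity
  have e1 : ((d : ℝ) + 1) * x / (d + 1) = x := by field_simp
  rw [e1, ← Real.sqrt_mul (by positivity)]
  have hC1 : (0 : ℝ) ≤ (d + 1).choose k := by positivity
  conv_lhs => rw [← Real.sqrt_sq hC1]
  rw [← Real.sqrt_mul (by positivity)]
  congr 1
  have hch : ((d.choose k : ℕ) : ℝ) * (d + 1) = (d + 1).choose k * ((d : ℝ) + 1 - k) := by
    have h := Nat.choose_mul_succ_eq d k
    have h2 : ((d.choose k * (d + 1) : ℕ) : ℝ) = (((d + 1).choose k * (d + 1 - k) : ℕ) : ℝ) := by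
      rw [h]
    push_cast [Nat.cast_sub (by omega : k ≤ d + 1)] at h2
    exact h2
  have hch' : ((d.choose k : ℕ) : ℝ) = (d + 1).choose k * ((d : ℝ) + 1 - k) / (d + 1) := by
    rw [eq_div_iff hd1.ne', hch]
  have e2 : x ^ k * (((d : ℝ) + 1) * x / d) ^ k = c ^ k := by
    rw [← mul_pow]
    congr 1
    calc x * (((d : ℝ) + 1) * x / d) = x ^ 2 * ((d + 1) / d) := by ring
      _ = c := by rw [hx2]; field_simp
  calc ((d + 1).choose k : ℝ) ^ 2 * (c ^ k * (1 - k * (1 / ((d : ℝ) + 1))))
      = (d + 1).choose k * ((d + 1).choose k * ((d : ℝ) + 1 - k) / (d + 1)) * c ^ k := by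
        field_simp
    _ = (d + 1).choose k * d.choose k * (x ^ k * (((d : ℝ) + 1) * x / d) ^ k) := by
        rw [← hch', e2]
    _ = _ := by ring

/-- the Gram matrix of a regular simplex centred at the origin -/
theorem gram_reg {d : ℕ} (p : Fin (d + 1) → EuclideanSpace ℝ (Fin d)) {l : ℝ}
    (hd : ∀ i j, i ≠ j → dist (p i) (p j) = l) (hs : ∑ i, p i = 0) (a b : Fin (d + 1)) :
    inner ℝ (p a) (p b) = (l ^ 2 / 2) * ((if a = b then 1 else 0) - 1 / ((d : ℝ) + 1)) := by
  have hd1 : (0 : ℝ) < (d : ℝ) + 1 := by positivity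
  have hd2 : ∀ i j, ‖p i‖ ^ 2 + ‖p j‖ ^ 2 - 2 * inner ℝ (p i) (p j) =
      l ^ 2 * (1 - if i = j then 1 else 0) := by
    intro i j
    split_ifs with h
    · subst h
      rw [real_inner_self_eq_norm_sq]
      ring
    · rw [← hd i j h, dist_eq_norm, norm_sub_sq_real]
      ring
  set T := ∑ j, ‖p j‖ ^ 2 with hT
  have h1 : ∀ i, ((d : ℝ) + 1) * ‖p i‖ ^ 2 + T = l ^ 2 * d := by
    intro i
    have := sum_congr rfl fun j (_ : j ∈ univ) => hd2 i j
    rw [sum_sub_distrib, sum_add_distrib, ← mul_sum, ← inner_sum, hs, inner_zero_right, ← mul_sum,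
      sum_sub_distrib, sum_ite_eq, if_pos (mem_univ _)] at this
    simp only [sum_const, card_univ, Fintype.card_fin, nsmul_eq_mul] at this
    push_cast at this
    rw [← hT] at this
    linarith
  have h2 : 2 * ((d : ℝ) + 1) * T = ((d : ℝ) + 1) * (l ^ 2 * d) := by
    have := sum_congr rfl fun j (_ : j ∈ univ) => h1 j
    rw [sum_add_distrib, ← mul_sum] at this
    simp only [sum_const, card_univ, Fintype.card_fin, nsmul_eq_mul] at this
    push_cast at this
    rw [← hT] at this
    linarith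
  have h3 : T = l ^ 2 * d / 2 := by
    have : 2 * T = l ^ 2 * d := by
      apply mul_left_cancel₀ hd1.ne'
      linarith
    linarith
  have h4 : ∀ i, ‖p i‖ ^ 2 = l ^ 2 * d / (2 * (d + 1)) := by
    intro i
    rw [eq_div_iff (by positivity)]
    have := h1 i
    linarith
  have h5 := hd2 a b
  rw [h4, h4] at h5
  have h6 : inner ℝ (p a) (p b) = l ^ 2 * d / (2 * (d + 1)) -
      l ^ 2 * (1 - if a = b then 1 else 0) / 2 := by linarith
  rw [h6]
  field_simp
  ring

/-- a regular simplex in `ℝ^d` -/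
theorem exists_reg (d : ℕ) : ∃ r : Fin (d + 1) → EuclideanSpace ℝ (Fin d),
    (∀ a b, inner ℝ (r a) (r b) = (if a = b then 1 else 0) - 1 / ((d : ℝ) + 1)) ∧
      Submodule.span ℝ (Set.range r) = ⊤ := by
  have hd1 : (0 : ℝ) < (d : ℝ) + 1 := by positivity
  set v : EuclideanSpace ℝ (Fin (d + 1)) := WithLp.toLp 2 (fun _ => (1 : ℝ)) with hv
  have hv0 : v ≠ 0 := by
    intro h
    have := congrArg (fun x : EuclideanSpace ℝ (Fin (d + 1)) => x 0) h
    simp [hv] at this
  have : Fact (Module.finrank ℝ (EuclideanSpace ℝ (Fin (d + 1))) = d + 1) := ⟨by simp⟩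
  set b := OrthonormalBasis.fromOrthogonalSpanSingleton (𝕜 := ℝ) d hv0 with hb
  have iv : ∀ x : EuclideanSpace ℝ (Fin (d + 1)), inner ℝ v x = ∑ i, x i := by
    intro x
    rw [PiLp.inner_apply]
    refine sum_congr rfl fun i _ => ?_
    simp [hv]
  have hmem : ∀ a, EuclideanSpace.single a (1 : ℝ) - (1 / ((d : ℝ) + 1)) • v ∈
      (Submodule.span ℝ {v})ᗮ := by
    intro a
    rw [Submodule.mem_orthogonal_singleton_iff_inner_right, inner_sub_right, inner_smul_right, iv,
      iv]
    simp [hv]
    field_simp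
    ring
  set y : Fin (d + 1) → (Submodule.span ℝ {v})ᗮ := fun a => ⟨_, hmem a⟩ with hy
  have ev : ∀ a, inner ℝ (EuclideanSpace.single a (1 : ℝ)) v = 1 := by
    intro a
    rw [real_inner_comm, iv]
    simp
  have ve : ∀ a, inner ℝ v (EuclideanSpace.single a (1 : ℝ)) = 1 := by
    intro a
    rw [iv]
    simp
  have vv : inner ℝ v v = (d : ℝ) + 1 := by
    rw [iv]
    simp [hv]
  have ee : ∀ a c : Fin (d + 1), inner ℝ (EuclideanSpace.single a (1 : ℝ))
      (EuclideanSpace.single c (1 : ℝ)) = if a = c then (1 : ℝ) else 0 := by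
    intro a c
    rw [EuclideanSpace.inner_single_left]
    simp
  refine ⟨fun a => b.repr (y a), ?_, ?_⟩
  · intro a c
    rw [LinearIsometryEquiv.inner_map_map, Submodule.coe_inner, hy]
    simp only
    rw [inner_sub_left, inner_sub_right, inner_sub_right, inner_smul_left, inner_smul_right,
      inner_smul_right, inner_smul_left, ev, ve, vv, ee]
    simp only [conj_trivial]
    field_simp
    ring
  · rw [Submodule.eq_top_iff']
    intro x
    set z := b.repr.symm x with hz
    have hxz : x = b.repr z := by rw [hz, LinearIsometryEquiv.apply_symm_apply]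
    have hz0 : ∑ i, (z : EuclideanSpace ℝ (Fin (d + 1))) i = 0 := by
      rw [← iv]
      exact (Submodule.mem_orthogonal_singleton_iff_inner_right).1 z.2
    have hzs : z = ∑ a, (z : EuclideanSpace ℝ (Fin (d + 1))) a • y a := by
      apply Subtype.ext
      rw [AddSubmonoidClass.coe_finsetSum]
      have : ∀ a, (((z : EuclideanSpace ℝ (Fin (d + 1))) a • y a : (Submodule.span ℝ {v})ᗮ) :
          EuclideanSpace ℝ (Fin (d + 1))) = (z : EuclideanSpace ℝ (Fin (d + 1))) a •
            EuclideanSpace.single a (1 : ℝ) -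
            ((z : EuclideanSpace ℝ (Fin (d + 1))) a * (1 / ((d : ℝ) + 1))) • v := by
        intro a
        rw [Submodule.coe_smul, hy]
        simp only
        rw [smul_sub, smul_smul]
      simp only [this]
      rw [sum_sub_distrib, ← sum_smul, ← sum_mul, hz0, zero_mul, zero_smul, sub_zero]
      ext i
      simp [Pi.single_apply]
    rw [hxz, hzs, map_sum]
    refine Submodule.sum_mem _ fun a _ => ?_
    rw [map_smul]
    exact Submodule.smul_mem _ _ (Submodule.subset_span ⟨a, rfl⟩)

end Q188.Mean
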