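import Pool.Agent.Q188.Mean.Minors
import Pool.Agent.Q188.Rhomb.Defs

/-!
# Intrinsic volumes of zonotopes: the inequality
-/

set_option autoImplicit false

open Finset Matrix

namespace Q188.Mean

/-- The `k`-th intrinsic volume of the zonotope `∑ [o, p i]`: the sum, over the `k`-element sets `I`
of indices, of the `k`-volume `|p_{i_1} ∧ ⋯ ∧ p_{i_k}|` of the parallelotope spanned by the `p i`,
`i ∈ I`; this volume is the square root of the Gram determinant. -/
noncomputable def Vk {d n : ℕ} (k : ℕ) (p : Fin n → EuclideanSpace ℝ (Fin d)) : ℝ :=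
  ∑ I ∈ univ.powersetCard k, √ (Matrix.det (Matrix.of fun i j : I => inner ℝ (p i.1) (p j.1)))

/-- volume of the unit ball in dimension `m` -/
noncomputable def kappa (m : ℕ) : ℝ :=
  (MeasureTheory.volume (Metric.ball (0 : EuclideanSpace ℝ (Fin m)) 1)).toReal

/-- The mean width `(2 κ_{d-1} / (d κ_d)) ∑ |p i|` of the zonotope `∑ [o, p i]` in `ℝ^d`. -/
noncomputable def meanWidth {d n : ℕ} (p : Fin n → EuclideanSpace ℝ (Fin d)) : ℝ :=
  2 * kappa (d - 1) / (d * kappa d) * ∑ i, ‖p i‖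

/-- The value of `Vk` at the regular rhombic dodecahedra with `∑ |p i| = S`. -/
noncomputable def bd (d k : ℕ) (S : ℝ) : ℝ :=
  √ ((d + 1).choose k * (S / (d + 1)) ^ k) * √ (d.choose k * (S / d) ^ k)

/-- the vectors `p i` divided by the square roots of their lengths -/
noncomputable def qq {d n : ℕ} (p : Fin n → EuclideanSpace ℝ (Fin d)) (i : Fin n) :
    EuclideanSpace ℝ (Fin d) := (√‖p i‖)⁻¹ • p i

theorem qq_smul {d n : ℕ} (p : Fin n → EuclideanSpace ℝ (Fin d)) (i : Fin n) :
    √‖p i‖ • qq p i = p i := by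
  unfold qq
  by_cases h : p i = 0
  · simp [h]
  · rw [smul_smul, mul_inv_cancel₀, one_smul]
    have : 0 < ‖p i‖ := norm_pos_iff.2 h
    positivity

theorem norm_qq {d n : ℕ} (p : Fin n → EuclideanSpace ℝ (Fin d)) (i : Fin n) :
    ‖qq p i‖ ^ 2 = ‖p i‖ := by
  unfold qq
  by_cases h : p i = 0
  · simp [h]
  · have h0 : 0 < ‖p i‖ := norm_pos_iff.2 h
    rw [norm_smul, mul_pow, norm_inv, Real.norm_eq_abs, abs_of_nonneg (Real.sqrt_nonneg _), inv_pow,
      Real.sq_sqrt h0.le]
    field_simp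

theorem gram_det {d n : ℕ} (p : Fin n → EuclideanSpace ℝ (Fin d)) (I : Finset (Fin n)) :
    Matrix.det (Matrix.of fun i j : I => inner ℝ (p i.1) (p j.1)) = (∏ i ∈ I, ‖p i‖) *
      ((gram ℝ (qq p)).submatrix (Subtype.val : I → Fin n) (Subtype.val : I → Fin n)).det := by
  set A : Matrix I I ℝ := (gram ℝ (qq p)).submatrix (Subtype.val : I → Fin n)
    (Subtype.val : I → Fin n) with hA
  have e : (Matrix.of fun i j : I => inner ℝ (p i.1) (p j.1)) =
      Matrix.of fun i j : I => √‖p i.1‖ * (Matrix.of fun i j : I => √‖p j.1‖ * A i j) i j := by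
    ext i j
    simp only [Matrix.of_apply, hA, submatrix_apply, gram_apply]
    conv_lhs => rw [← qq_smul p i.1, ← qq_smul p j.1]
    rw [inner_smul_left, inner_smul_right]
    simp only [conj_trivial]
  rw [e, det_mul_column, det_mul_row, ← mul_assoc, ← prod_mul_distrib]
  congr 1
  rw [← prod_coe_sort I (fun i => ‖p i‖)]
  refine prod_congr rfl fun i _ => ?_
  rw [Real.mul_self_sqrt (norm_nonneg _)]

theorem trace_gram {d n : ℕ} (p : Fin n → EuclideanSpace ℝ (Fin d)) :
    (gram ℝ (qq p)).trace = ∑ i, ‖p i‖ := by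
  unfold Matrix.trace
  refine sum_congr rfl fun i _ => ?_
  rw [diag_apply, gram_apply, real_inner_self_eq_norm_sq, norm_qq]

theorem det_gram {d : ℕ} (p : Fin (d + 1) → EuclideanSpace ℝ (Fin d)) :
    (gram ℝ (qq p)).det = 0 := by
  by_contra h
  have h1 := linearIndependent_of_det_gram_ne_zero (𝕜 := ℝ) h
  have h2 := h1.fintype_card_le_finrank
  simp at h2

theorem vk_le_mul {d n : ℕ} (k : ℕ) (p : Fin n → EuclideanSpace ℝ (Fin d)) :
    Vk k p ≤ √ (ek univ (fun i => ‖p i‖) k) * √ (minors (gram ℝ (qq p)) k) := by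
  unfold Vk
  have h1 : ∀ I : Finset (Fin n), √ (Matrix.det (Matrix.of fun i j : I => inner ℝ (p i.1) (p j.1))) =
      √ (∏ i ∈ I, ‖p i‖) * √ ((gram ℝ (qq p)).submatrix (Subtype.val : I → Fin n)
        (Subtype.val : I → Fin n)).det := by
    intro I
    rw [gram_det, Real.sqrt_mul (prod_nonneg fun i _ => norm_nonneg _)]
  simp only [h1]
  refine (Real.sum_mul_le_sqrt_mul_sqrt _ _ _).trans ?_
  apply le_of_eq
  congr 2
  · unfold ek
    refine sum_congr rfl fun I _ => ?_
    rw [Real.sq_sqrt (prod_nonneg fun i _ => norm_nonneg _)]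
  · unfold minors
    refine sum_congr rfl fun I _ => ?_
    rw [Real.sq_sqrt]
    exact ((posSemidef_gram ℝ (qq p)).submatrix _).det_nonneg

theorem ek_le {d : ℕ} (k : ℕ) (p : Fin (d + 1) → EuclideanSpace ℝ (Fin d)) :
    ek univ (fun i => ‖p i‖) k ≤ (d + 1).choose k * ((∑ i, ‖p i‖) / (d + 1)) ^ k := by
  have h := mac_le (y := fun i => ‖p i‖) (fun i => norm_nonneg _) (by simp) k
  simpa using h

theorem mi_le {d : ℕ} {k : ℕ} (hk : k ≤ d) (hd : 0 < d)
    (p : Fin (d + 1) → EuclideanSpace ℝ (Fin d)) :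
    minors (gram ℝ (qq p)) k ≤ d.choose k * ((∑ i, ‖p i‖) / d) ^ k := by
  have h := minors_le (posSemidef_gram ℝ (qq p)) (det_gram p) (d := d) (by simp) hk hd
  rwa [trace_gram] at h

theorem minors_nonneg {d n : ℕ} (p : Fin n → EuclideanSpace ℝ (Fin d)) (k : ℕ) :
    0 ≤ minors (gram ℝ (qq p)) k := by
  unfold minors
  exact sum_nonneg fun I _ => ((posSemidef_gram ℝ (qq p)).submatrix _).det_nonneg

/-- the inequality -/
theorem vk_le {d : ℕ} {k : ℕ} (hk : k ≤ d) (hd : 0 < d)
    (p : Fin (d + 1) → EuclideanSpace ℝ (Fin d)) : Vk k p ≤ bd d k (∑ i, ‖p i‖) := by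
  refine (vk_le_mul k p).trans ?_
  unfold bd
  gcongr
  · exact ek_le k p
  · exact mi_le hk hd p

/-- the case of equality: the Gram matrix -/
theorem eq_case {d : ℕ} {k : ℕ} (hk2 : 2 ≤ k) (hk : k ≤ d)
    (p : Fin (d + 1) → EuclideanSpace ℝ (Fin d)) (hS : 0 < ∑ i, ‖p i‖)
    (h : bd d k (∑ i, ‖p i‖) ≤ Vk k p) :
    (∀ i, ‖p i‖ = (∑ i, ‖p i‖) / (d + 1)) ∧ ∃ w : Fin (d + 1) → ℝ, ∀ a b,
      inner ℝ (qq p a) (qq p b) = ((∑ i, ‖p i‖) / d) * ((if a = b then 1 else 0) - w a * w b) := by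
  have hd : 0 < d := by omega
  set S := ∑ i, ‖p i‖ with hSS
  have hA := ek_le k p
  have hB := mi_le hk hd p
  rw [← hSS] at hA hB
  have hAB := h.trans (vk_le_mul k p)
  unfold bd at hAB
  set A := ek univ (fun i => ‖p i‖) k with hAdef
  set B := minors (gram ℝ (qq p)) k with hBdef
  set A' := ((d + 1).choose k : ℝ) * (S / (d + 1)) ^ k with hA'
  set B' := (d.choose k : ℝ) * (S / d) ^ k with hB'
  have hc1 : (0 : ℝ) < (d + 1).choose k := by
    exact_mod_cast Nat.choose_pos (by omega)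
  have hc2 : (0 : ℝ) < d.choose k := by
    exact_mod_cast Nat.choose_pos hk
  have hd' : (0 : ℝ) < d := by exact_mod_cast hd
  have hA'0 : 0 < A' := by positivity
  have hB'0 : 0 < B' := by positivity
  have hA0 : 0 ≤ A := ek_nonneg (fun i _ => norm_nonneg _) k
  have hB0 : 0 ≤ B := minors_nonneg p k
  have hAeq : A = A' := by
    apply le_antisymm hA
    by_contra hc
    push Not at hc
    have h1 : √A < √A' := Real.sqrt_lt_sqrt hA0 hc
    have h2 : √A * √B ≤ √A * √B' := by gcongr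
    have h3 : √A * √B' < √A' * √B' := by
      apply mul_lt_mul_of_pos_right h1
      positivity
    linarith
  have hBeq : B = B' := by
    apply le_antisymm hB
    by_contra hc
    push Not at hc
    have h1 : √B < √B' := Real.sqrt_lt_sqrt hB0 hc
    have h2 : √A * √B ≤ √A' * √B := by gcongr
    have h3 : √A' * √B < √A' * √B' := by
      apply mul_lt_mul_of_pos_left h1
      positivity
    linarith
  constructor
  · intro i
    have := mac_eq (y := fun i => ‖p i‖) (fun i => norm_nonneg _) hk2 (by simp; omega) hS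
      (by simpa using hAeq) i
    simpa using this
  · obtain ⟨w, hw⟩ := minors_eq_case (posSemidef_gram ℝ (qq p)) (det_gram p) (d := d) (by simp)
      hk2 hk (by rw [trace_gram]; exact hS) (by rw [trace_gram]; exact hBeq)
    refine ⟨w, fun a b => ?_⟩
    have := hw a b
    rw [trace_gram, gram_apply] at this
    exact this

end Q188.Mean
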